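import Mathlib
import Pool.Agent.X6.ProdInt

/-!
# MP_1fd3e3_co, Q1: `H_Q` is closed under unions for every infinite index set `Q`

In fact every set of positive integers containing `1` lies in `H_Q`.
-/

namespace Pool.Agent.Results.MP_1fd3e3_co.UnionClosedQ

open Pool.Agent.X6.ProdInt

universe u v

/-- The collection `H_Q`, the union of `H_Q(S)` over all semigroups `S` (in a universe `u`): the
sets `H(A_q)` for the families `(A_q)_{q ∈ Q}` of subsets of semigroups `S` for which the
collection of sets `{A_q : q ∈ Q}` is infinite. -/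
def HQ (Q : Type v) : Set (Set ℕ) :=
  {X | ∃ (S : Type u) (_ : Semigroup S) (A : Q → Set S),
    (Set.range A).Infinite ∧ prodIntSet A = X}

/-- A collection of subsets of `ℕ` is closed under unions. -/
def ClosedUnderUnions (C : Set (Set ℕ)) : Prop :=
  ∀ X ∈ C, ∀ Y ∈ C, X ∪ Y ∈ C

/-- For every infinite index set `Q`, `H_Q` is closed under unions. -/
theorem result : ∀ (Q : Type v), Infinite Q → ClosedUnderUnions (HQ.{u, v} Q) := by
  intro Q hQ X hX Y hY
  have hX' : 0 ∉ X ∧ 1 ∈ X := by
    obtain ⟨S, inst, A, -, rfl⟩ := hX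
    exact ⟨zero_notMem_prodIntSet A, one_mem_prodIntSet A⟩
  have hY' : 0 ∉ Y := by
    obtain ⟨S, inst, A, -, rfl⟩ := hY
    exact zero_notMem_prodIntSet A
  obtain ⟨S, inst, -, hS⟩ := exists_universal.{u, v}
  obtain ⟨B, -, hB, hH⟩ := hS (X ∪ Y) (Or.inl hX'.2) (fun h => h.elim hX'.1 hY')
  obtain ⟨f, hf⟩ : ∃ f : Q → ℕ, Function.Surjective f :=
    ⟨_, (Function.leftInverse_invFun (Infinite.natEmbedding Q).injective).surjective⟩
  refine ⟨S, inferInstance, fun q => B (f q), ?_, hH Q f hf⟩
  have : Set.range (fun q => B (f q)) = Set.range B := by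
    have := hf.range_comp B
    exact this
  rw [this]
  exact Set.infinite_range_of_injective hB

end Pool.Agent.Results.MP_1fd3e3_co.UnionClosedQ
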