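import Mathlib
import Pool.Agent.X6.ProdInt

/-!
# MP_1fd3e3_co, Q2: `H*_N` is closed under unions

In fact every set of positive integers containing `1` lies in `H*_N`.
-/

namespace Pool.Agent.Results.MP_1fd3e3_co.UnionClosedStar

open Pool.Agent.X6.ProdInt

universe u

/-- The collection `H*_N`: the sets `H(A_q)` for the asymptotically strictly decreasing sequences
`(A_q)` of subsets of semigroups `S` (in a universe `u`). -/
def HStarN : Set (Set ℕ) :=
  {X | ∃ (S : Type u) (_ : Semigroup S) (A : ℕ → Set S),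
    AsympStrictDecr A ∧ prodIntSet A = X}

/-- A collection of subsets of `ℕ` is closed under unions. -/
def ClosedUnderUnions (C : Set (Set ℕ)) : Prop :=
  ∀ X ∈ C, ∀ Y ∈ C, X ∪ Y ∈ C

/-- `H*_N` is closed under unions. -/
theorem result : ClosedUnderUnions HStarN.{u} := by
  intro X hX Y hY
  have hX' : 0 ∉ X ∧ 1 ∈ X := by
    obtain ⟨S, inst, A, -, rfl⟩ := hX
    exact ⟨zero_notMem_prodIntSet A, one_mem_prodIntSet A⟩
  have hY' : 0 ∉ Y := by
    obtain ⟨S, inst, A, -, rfl⟩ := hY
    exact zero_notMem_prodIntSet A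
  obtain ⟨S, inst, -, hS⟩ := exists_universal.{u, 0}
  obtain ⟨B, hB, -, hH⟩ := hS (X ∪ Y) (Or.inl hX'.2) (fun h => h.elim hX'.1 hY')
  exact ⟨S, inferInstance, B, hB, hH ℕ id Function.surjective_id⟩

end Pool.Agent.Results.MP_1fd3e3_co.UnionClosedStar
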